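import Mathlib

/-!
MP_509871_co, Q1: a regular CIS graph `G` such that `G` and its complement are connected,
well-covered and irreducible need not be vertex-transitive.
-/

namespace Pool.Agent.Results.MP_509871_co.RegularCISNotTransitive

open Finset

section Defs

variable {V : Type}

/-- `C` is an inclusion-maximal clique. -/
def IsMaxClique (G : SimpleGraph V) (C : Finset V) : Prop :=
  (∀ x ∈ C, ∀ y ∈ C, x ≠ y → G.Adj x y) ∧ ∀ x, x ∉ C → ∃ y ∈ C, ¬ G.Adj x y

/-- `S` is an inclusion-maximal stable set. -/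
def IsMaxStable (G : SimpleGraph V) (S : Finset V) : Prop :=
  (∀ x ∈ S, ∀ y ∈ S, ¬ G.Adj x y) ∧ ∀ x, x ∉ S → ∃ y ∈ S, G.Adj x y

/-- Every maximal clique meets every maximal stable set. -/
def IsCIS (G : SimpleGraph V) : Prop :=
  ∀ C S : Finset V, IsMaxClique G C → IsMaxStable G S → ∃ x, x ∈ C ∧ x ∈ S

/-- All maximal stable sets have the same size. -/
def IsWellCovered (G : SimpleGraph V) : Prop :=
  ∀ S T : Finset V, IsMaxStable G S → IsMaxStable G T → S.card = T.card

/-- Distinct vertices have distinct neighbourhoods. -/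
def IsIrreducible (G : SimpleGraph V) : Prop :=
  ∀ u v, u ≠ v → G.neighborSet u ≠ G.neighborSet v

/-- All vertices have the same degree. -/
def IsRegular (G : SimpleGraph V) : Prop :=
  ∃ d : ℕ, ∀ v, (G.neighborSet v).ncard = d

/-- The automorphism group acts transitively on the vertices. -/
def IsVertexTransitive (G : SimpleGraph V) : Prop :=
  ∀ u v, ∃ φ : G ≃g G, φ u = v

end Defs

section Comp

variable {A B : Type}

/-- Substitute `H a` for the vertex `a` of `G`. -/
def comp (G : SimpleGraph A) (H : A → SimpleGraph B) : SimpleGraph (A × B) where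
  Adj p q := G.Adj p.1 q.1 ∨ (p.1 = q.1 ∧ (H p.1).Adj p.2 q.2)
  symm := ⟨fun p q h => by
    rcases h with h | ⟨h1, h2⟩
    · exact Or.inl h.symm
    · exact Or.inr ⟨h1.symm, by rw [← h1]; exact h2.symm⟩⟩
  loopless := ⟨fun p h => by
    rcases h with h | ⟨_, h2⟩
    · exact G.loopless.irrefl _ h
    · exact (H p.1).loopless.irrefl _ h2⟩

lemma comp_adj (G : SimpleGraph A) (H : A → SimpleGraph B) (p q : A × B) :
    (comp G H).Adj p q ↔ G.Adj p.1 q.1 ∨ (p.1 = q.1 ∧ (H p.1).Adj p.2 q.2) := Iff.rfl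

lemma comp_compl (G : SimpleGraph A) (H : A → SimpleGraph B) :
    (comp G H)ᶜ = comp Gᶜ (fun a => (H a)ᶜ) := by
  ext p q
  rw [SimpleGraph.compl_adj, comp_adj, comp_adj, SimpleGraph.compl_adj,
    SimpleGraph.compl_adj]
  by_cases h : p.1 = q.1
  · have h1 : ¬ G.Adj p.1 q.1 := by rw [h]; exact G.loopless.irrefl _
    have h2 : p ≠ q ↔ p.2 ≠ q.2 := by
      constructor
      · intro hp h3; exact hp (Prod.ext h h3)
      · intro hp h3; exact hp (by rw [h3])
    tauto
  · have h2 : p ≠ q := fun h3 => h (by rw [h3])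
    tauto

lemma maxStable_iff {V : Type} (G : SimpleGraph V) (S : Finset V) :
    IsMaxStable G S ↔ IsMaxClique Gᶜ S := by
  unfold IsMaxStable IsMaxClique
  constructor
  · rintro ⟨h1, h2⟩
    refine ⟨fun x hx y hy hxy => ?_, fun x hx => ?_⟩
    · rw [SimpleGraph.compl_adj]; exact ⟨hxy, h1 x hx y hy⟩
    · obtain ⟨y, hy, hxy⟩ := h2 x hx
      exact ⟨y, hy, by rw [SimpleGraph.compl_adj]; tauto⟩
  · rintro ⟨h1, h2⟩
    refine ⟨fun x hx y hy hxy => ?_, fun x hx => ?_⟩
    · have := h1 x hx y hy hxy.ne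
      rw [SimpleGraph.compl_adj] at this
      exact this.2 hxy
    · obtain ⟨y, hy, hxy⟩ := h2 x hx
      refine ⟨y, hy, ?_⟩
      rw [SimpleGraph.compl_adj] at hxy
      by_contra h
      exact hxy ⟨fun h3 => hx (h3 ▸ hy), h⟩

open Classical in
/-- Fibre of a set over `a`. -/
noncomputable def fib (C : Finset (A × B)) (a : A) : Finset B :=
  (C.filter (fun p => p.1 = a)).image Prod.snd

lemma mem_fib (C : Finset (A × B)) (a : A) (b : B) : b ∈ fib C a ↔ (a, b) ∈ C := by
  classical
  unfold fib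
  rw [Finset.mem_image]
  constructor
  · rintro ⟨p, hp, rfl⟩
    rw [Finset.mem_filter] at hp
    obtain ⟨hp1, rfl⟩ := hp
    exact hp1
  · intro h
    exact ⟨(a, b), by rw [Finset.mem_filter]; exact ⟨h, rfl⟩, rfl⟩

open Classical in
/-- Projection of a set. -/
noncomputable def proj (C : Finset (A × B)) : Finset A := C.image Prod.fst

lemma mem_proj (C : Finset (A × B)) (a : A) : a ∈ proj C ↔ ∃ b, (a, b) ∈ C := by
  classical
  unfold proj
  rw [Finset.mem_image]
  constructor
  · rintro ⟨p, hp, rfl⟩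
    exact ⟨p.2, hp⟩
  · rintro ⟨b, hb⟩
    exact ⟨(a, b), hb, rfl⟩

lemma card_eq_sum (C : Finset (A × B)) : C.card = ∑ a ∈ proj C, (fib C a).card := by
  classical
  have h1 : C.card = ∑ a ∈ proj C, (C.filter (fun p => p.1 = a)).card := by
    apply Finset.card_eq_sum_card_fiberwise
    intro p hp
    exact (mem_proj C p.1).mpr ⟨p.2, hp⟩
  rw [h1]
  apply Finset.sum_congr rfl
  intro a _
  unfold fib
  rw [Finset.card_image_of_injOn]
  intro p hp q hq h
  rw [Finset.mem_coe, Finset.mem_filter] at hp hq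
  exact Prod.ext (hp.2.trans hq.2.symm) h

lemma maxClique_struct [Nonempty B] (G : SimpleGraph A) (H : A → SimpleGraph B)
    (C : Finset (A × B)) (hC : IsMaxClique (comp G H) C) :
    IsMaxClique G (proj C) ∧ ∀ a ∈ proj C, IsMaxClique (H a) (fib C a) := by
  obtain ⟨h1, h2⟩ := hC
  have hadj : ∀ a b a' b', (a, b) ∈ C → (a', b') ∈ C → a ≠ a' → G.Adj a a' := by
    intro a b a' b' h h' hne
    have := h1 (a, b) h (a', b') h' (fun h3 => hne (Prod.ext_iff.mp h3).1)
    rcases (comp_adj G H _ _).mp this with h3 | h3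
    · exact h3
    · exact absurd h3.1 hne
  refine ⟨⟨fun x hx y hy hxy => ?_, fun x hx => ?_⟩, fun a ha => ⟨fun x hx y hy hxy => ?_,
    fun x hx => ?_⟩⟩
  · obtain ⟨b, hb⟩ := (mem_proj C x).mp hx
    obtain ⟨b', hb'⟩ := (mem_proj C y).mp hy
    exact hadj x b y b' hb hb' hxy
  · obtain ⟨b⟩ := ‹Nonempty B›
    have : (x, b) ∉ C := fun h => hx ((mem_proj C x).mpr ⟨b, h⟩)
    obtain ⟨⟨a', b'⟩, hy, hn⟩ := h2 (x, b) this
    refine ⟨a', (mem_proj C a').mpr ⟨b', hy⟩, fun h => hn ?_⟩
    exact (comp_adj G H _ _).mpr (Or.inl h)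
  · rw [mem_fib] at hx hy
    have := h1 (a, x) hx (a, y) hy (fun h3 => hxy (Prod.ext_iff.mp h3).2)
    rcases (comp_adj G H _ _).mp this with h3 | h3
    · exact absurd h3 (G.loopless.irrefl _)
    · exact h3.2
  · rw [mem_fib] at hx
    obtain ⟨⟨a', b'⟩, hy, hn⟩ := h2 (a, x) hx
    obtain ⟨b, hb⟩ := (mem_proj C a).mp ha
    by_cases haa : a = a'
    · subst haa
      refine ⟨b', (mem_fib C a b').mpr hy, fun h => hn ?_⟩
      exact (comp_adj G H _ _).mpr (Or.inr ⟨rfl, h⟩)
    · exfalso
      apply hn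
      exact (comp_adj G H _ _).mpr (Or.inl (hadj a b a' b' hb hy haa))

/-- All maximal cliques have size `w`. -/
def CliqueSize {V : Type} (G : SimpleGraph V) (w : ℕ) : Prop :=
  ∀ C, IsMaxClique G C → C.card = w

lemma comp_cliqueSize [Nonempty B] (G : SimpleGraph A) (H : A → SimpleGraph B) (w₀ w : ℕ)
    (hG : CliqueSize G w₀) (hH : ∀ a, CliqueSize (H a) w) :
    CliqueSize (comp G H) (w₀ * w) := by
  intro C hC
  obtain ⟨h1, h2⟩ := maxClique_struct G H C hC
  rw [card_eq_sum C, Finset.sum_congr rfl (fun a ha => hH a _ (h2 a ha)), Finset.sum_const,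
    hG _ h1, smul_eq_mul]

lemma comp_cis [Nonempty B] (G : SimpleGraph A) (H : A → SimpleGraph B)
    (hG : IsCIS G) (hH : ∀ a, IsCIS (H a)) : IsCIS (comp G H) := by
  intro C S hC hS
  obtain ⟨h1, h2⟩ := maxClique_struct G H C hC
  rw [maxStable_iff, comp_compl] at hS
  obtain ⟨h3, h4⟩ := maxClique_struct _ _ S hS
  obtain ⟨a, ha, ha'⟩ := hG _ _ h1 ((maxStable_iff _ _).mpr h3)
  obtain ⟨b, hb, hb'⟩ := hH a _ _ (h2 a ha) ((maxStable_iff _ _).mpr (h4 a ha'))
  exact ⟨(a, b), (mem_fib C a b).mp hb, (mem_fib S a b).mp hb'⟩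

/-- Any two vertices, possibly equal, have a common neighbour. -/
def CN {V : Type} (G : SimpleGraph V) : Prop := ∀ x y, ∃ z, G.Adj x z ∧ G.Adj y z

lemma comp_cn [Nonempty B] (G : SimpleGraph A) (H : A → SimpleGraph B) (hG : CN G) :
    CN (comp G H) := by
  intro p q
  obtain ⟨c, h1, h2⟩ := hG p.1 q.1
  obtain ⟨b⟩ := ‹Nonempty B›
  exact ⟨(c, b), Or.inl h1, Or.inl h2⟩

lemma cn_connected {V : Type} [Nonempty V] (G : SimpleGraph V) (hG : CN G) :
    G.Connected := by
  rw [SimpleGraph.connected_iff]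
  refine ⟨fun u v => ?_, inferInstance⟩
  obtain ⟨z, h1, h2⟩ := hG u v
  exact h1.reachable.trans h2.symm.reachable

lemma comp_irreducible (G : SimpleGraph A) (K : SimpleGraph B) (hK : IsIrreducible K)
    (hc : CN K) : IsIrreducible (comp G (fun _ => K)) := by
  rintro ⟨a, b⟩ ⟨a', b'⟩ hne h
  have h' : ∀ q, (comp G (fun _ => K)).Adj (a, b) q ↔ (comp G (fun _ => K)).Adj (a', b') q := by
    intro q
    have := Set.ext_iff.mp h q
    simpa [SimpleGraph.mem_neighborSet] using this
  by_cases haa : a = a'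
  · subst haa
    have hbb : b ≠ b' := fun h3 => hne (by rw [h3])
    apply hK b b' hbb
    ext c
    rw [SimpleGraph.mem_neighborSet, SimpleGraph.mem_neighborSet]
    have := h' (a, c)
    rw [comp_adj, comp_adj] at this
    have hn : ¬ G.Adj a a := G.loopless.irrefl _
    simpa [hn] using this
  · obtain ⟨c, hc1, _⟩ := hc b b
    have h1 := (h' (a, c)).mp (Or.inr ⟨rfl, hc1⟩)
    have h2 : G.Adj a' a := by
      rcases (comp_adj _ _ _ _).mp h1 with h3 | h3
      · exact h3
      · exact absurd h3.1 (Ne.symm haa)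
    have h3 := (h' (a, b)).mpr (Or.inl h2)
    exact (comp G (fun _ => K)).loopless.irrefl _ h3

end Comp

section Count

variable {A B : Type} [Fintype A] [Fintype B]

open Classical in
/-- Adjacency indicator. -/
noncomputable def ad {V : Type} (G : SimpleGraph V) (x y : V) : ℕ :=
  if G.Adj x y then 1 else 0

/-- Degree. -/
noncomputable def dg {V : Type} [Fintype V] (G : SimpleGraph V) (x : V) : ℕ := ∑ y, ad G x y

/-- Twice the number of triangles through `x`. -/
noncomputable def tr {V : Type} [Fintype V] (G : SimpleGraph V) (x : V) : ℕ :=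
  ∑ y, ∑ z, ad G x y * ad G x z * ad G y z

lemma ad_self {V : Type} (G : SimpleGraph V) (x : V) : ad G x x = 0 := by
  unfold ad; simp

lemma ad_comm {V : Type} (G : SimpleGraph V) (x y : V) : ad G x y = ad G y x := by
  unfold ad
  by_cases h : G.Adj x y
  · rw [if_pos h, if_pos h.symm]
  · rw [if_neg h, if_neg (fun h2 => h h2.symm)]

lemma ad_mul {V : Type} (G : SimpleGraph V) (x y : V) : ad G x y * ad G x y = ad G x y := by
  unfold ad; split_ifs <;> simp

omit [Fintype A] [Fintype B] in
open Classical in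
lemma ad_comp (G : SimpleGraph A) (H : A → SimpleGraph B) (p q : A × B) :
    ad (comp G H) p q = ad G p.1 q.1 + (if p.1 = q.1 then ad (H p.1) p.2 q.2 else 0) := by
  unfold ad
  rw [comp_adj]
  by_cases h : p.1 = q.1
  · simp [h]
  · simp [h]

lemma dg_eq_ncard {V : Type} [Fintype V] (G : SimpleGraph V) (x : V) :
    (G.neighborSet x).ncard = dg G x := by
  classical
  unfold dg ad
  rw [Finset.sum_boole, Nat.cast_id, ← Set.ncard_coe_finset]
  congr 1
  ext y
  simp

lemma dg_comp (G : SimpleGraph A) (H : A → SimpleGraph B) (p : A × B) :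
    dg (comp G H) p = dg G p.1 * Fintype.card B + dg (H p.1) p.2 := by
  classical
  unfold dg
  simp only [ad_comp]
  rw [Finset.sum_add_distrib, Fintype.sum_prod_type, Fintype.sum_prod_type]
  congr 1
  · simp [Finset.mul_sum, mul_comm]
  · rw [Finset.sum_eq_single p.1]
    · simp
    · intro a _ ha
      simp [Ne.symm ha]
    · simp

/-- Number of common neighbours. -/
noncomputable def cc {V : Type} [Fintype V] (G : SimpleGraph V) (x y : V) : ℕ :=
  ∑ z, ad G x z * ad G y z

lemma tr_eq {V : Type} [Fintype V] (G : SimpleGraph V) (x : V) :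
    tr G x = ∑ y, ad G x y * cc G x y := by
  unfold tr cc
  apply Finset.sum_congr rfl
  intro y _
  rw [Finset.mul_sum]
  apply Finset.sum_congr rfl
  intro z _
  ring

lemma cc_self {V : Type} [Fintype V] (G : SimpleGraph V) (x : V) : cc G x x = dg G x := by
  unfold cc dg
  exact Finset.sum_congr rfl (fun z _ => ad_mul G x z)

open Classical in
lemma cc_comp (G : SimpleGraph A) (H : A → SimpleGraph B) (a a' : A) (b b' : B) :
    cc (comp G H) (a, b) (a', b') = Fintype.card B * cc G a a' + ad G a a' * dg (H a') b'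
      + ad G a' a * dg (H a) b + (if a = a' then cc (H a) b b' else 0) := by
  unfold cc
  simp only [ad_comp]
  rw [Fintype.sum_prod_type]
  have key : ∀ x : A, ∑ y : B, (ad G a x + (if a = x then ad (H a) b y else 0)) *
      (ad G a' x + (if a' = x then ad (H a') b' y else 0)) =
      Fintype.card B * (ad G a x * ad G a' x) + (if a' = x then ad G a x * dg (H a') b' else 0)
      + (if a = x then ad G a' x * dg (H a) b else 0)
      + (if a = x then (if a' = x then ∑ y, ad (H a) b y * ad (H a') b' y else 0) else 0) := by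
    intro x
    by_cases h1 : a = x
    · by_cases h2 : a' = x
      · simp only [h1, h2, if_true, ad_self, zero_add, mul_zero, zero_mul]
      · simp only [h1, h2, if_true, if_false, add_zero, ad_self, zero_add, mul_zero, zero_mul]
        rw [← Finset.sum_mul]
        unfold dg
        ring
    · by_cases h2 : a' = x
      · simp only [h1, h2, if_true, if_false, add_zero, ad_self, zero_add, mul_zero]
        rw [← Finset.mul_sum]
        rfl
      · simp only [h1, h2, if_false, add_zero]
        simp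
  simp only
  rw [Finset.sum_congr rfl (fun x _ => key x)]
  rw [Finset.sum_add_distrib, Finset.sum_add_distrib, Finset.sum_add_distrib]
  rw [← Finset.mul_sum]
  simp only [Finset.sum_ite_eq, Finset.mem_univ, if_true]
  congr 1
  by_cases h : a = a'
  · subst h; simp
  · simp [h, Ne.symm h]

lemma tr_comp (G : SimpleGraph A) (H : A → SimpleGraph B) (d : ℕ)
    (hd : ∀ a b, dg (H a) b = d) (a : A) (b : B) :
    tr (comp G H) (a, b) = Fintype.card B ^ 2 * tr G a + 3 * (Fintype.card B * d * dg G a)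
      + tr (H a) b := by
  classical
  rw [tr_eq, Fintype.sum_prod_type]
  have key : ∀ x : A, ∑ y : B, ad (comp G H) (a, b) (x, y) * cc (comp G H) (a, b) (x, y) =
      Fintype.card B ^ 2 * (ad G a x * cc G a x) + 2 * (Fintype.card B * d * ad G a x)
      + (if a = x then (Fintype.card B * dg G a * d + tr (H a) b) else 0) := by
    intro x
    by_cases h : a = x
    · subst h
      have h1 : ∀ y, ad (comp G H) (a, b) (a, y) * cc (comp G H) (a, b) (a, y) =
          Fintype.card B * dg G a * ad (H a) b y + ad (H a) b y * cc (H a) b y := by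
        intro y
        rw [cc_comp, ad_comp, cc_self]
        simp only [ad_self, if_true, zero_add, zero_mul, add_zero]
        ring
      rw [Finset.sum_congr rfl (fun y _ => h1 y), Finset.sum_add_distrib, ← Finset.mul_sum,
        ← tr_eq]
      have h2 : ∑ y, ad (H a) b y = d := hd a b
      rw [h2]
      simp [ad_self]
    · have h1 : ∀ y, ad (comp G H) (a, b) (x, y) * cc (comp G H) (a, b) (x, y) =
          Fintype.card B * (ad G a x * cc G a x) + 2 * (d * ad G a x) := by
        intro y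
        rw [cc_comp, ad_comp, hd, hd, ad_comm G x a]
        simp only [h, if_false, add_zero]
        have := ad_mul G a x
        calc ad G a x * (Fintype.card B * cc G a x + ad G a x * d + ad G a x * d)
            = Fintype.card B * (ad G a x * cc G a x) + 2 * (d * (ad G a x * ad G a x)) := by ring
          _ = _ := by rw [this]
      rw [Finset.sum_congr rfl (fun y _ => h1 y), Finset.sum_const, Finset.card_univ]
      simp only [h, if_false, smul_eq_mul]
      ring
  rw [Finset.sum_congr rfl (fun x _ => key x), Finset.sum_add_distrib, Finset.sum_add_distrib]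
  rw [← Finset.mul_sum, ← tr_eq, ← Finset.mul_sum, ← Finset.mul_sum]
  simp only [Finset.sum_ite_eq, Finset.mem_univ, if_true]
  have : ∑ x, ad G a x = dg G a := rfl
  rw [this]
  ring

lemma tr_iso {V : Type} [Fintype V] (G : SimpleGraph V) (φ : G ≃g G) (x : V) :
    tr G (φ x) = tr G x := by
  have had : ∀ y z, ad G (φ y) (φ z) = ad G y z := by
    intro y z
    unfold ad
    by_cases h : G.Adj y z
    · rw [if_pos h, if_pos (φ.map_adj_iff.mpr h)]
    · rw [if_neg h, if_neg (fun h2 => h (φ.map_adj_iff.mp h2))]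
  unfold tr
  rw [← Equiv.sum_comp φ.toEquiv]
  apply Finset.sum_congr rfl
  intro y _
  rw [← Equiv.sum_comp φ.toEquiv]
  apply Finset.sum_congr rfl
  intro z _
  show ad G (φ x) (φ y) * ad G (φ x) (φ z) * ad G (φ y) (φ z) = _
  rw [had, had, had]

end Count

section Atoms

/-- Index type with four elements. -/
abbrev Q : Type := Bool × Bool

/-- Vertex type of both building blocks, sixteen elements. -/
abbrev W : Type := Q × Q

/-- The `4 × 4` rook graph. -/
def rook : SimpleGraph W where
  Adj x y := (x.1 = y.1 ∧ x.2 ≠ y.2) ∨ (x.1 ≠ y.1 ∧ x.2 = y.2)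
  symm := ⟨fun x y h => by
    rcases h with ⟨h1, h2⟩ | ⟨h1, h2⟩
    · exact Or.inl ⟨h1.symm, h2.symm⟩
    · exact Or.inr ⟨h1.symm, h2.symm⟩⟩
  loopless := ⟨fun x h => by
    rcases h with ⟨_, h2⟩ | ⟨h1, _⟩
    · exact h2 rfl
    · exact h1 rfl⟩

/-- Two disjoint copies of `K_{2,2,2,2}`. -/
def twoOct : SimpleGraph W where
  Adj x y := x.1.1 = y.1.1 ∧ x.2 ≠ y.2
  symm := ⟨fun x y h => ⟨h.1.symm, h.2.symm⟩⟩
  loopless := ⟨fun x h => h.2 rfl⟩

instance : DecidableRel rook.Adj := fun x y =>
  inferInstanceAs (Decidable ((x.1 = y.1 ∧ x.2 ≠ y.2) ∨ (x.1 ≠ y.1 ∧ x.2 = y.2)))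

instance : DecidableRel twoOct.Adj := fun x y =>
  inferInstanceAs (Decidable (x.1.1 = y.1.1 ∧ x.2 ≠ y.2))

lemma ad_dec {V : Type} (G : SimpleGraph V) [DecidableRel G.Adj] (x y : V) :
    ad G x y = if G.Adj x y then 1 else 0 := by
  unfold ad
  split_ifs <;> rfl

lemma dg_rook (x : W) : dg rook x = 6 := by
  unfold dg
  simp only [ad_dec]
  revert x
  decide

lemma dg_twoOct (x : W) : dg twoOct x = 6 := by
  unfold dg
  simp only [ad_dec]
  revert x
  decide

lemma tr_rook : tr rook ((false, false), (false, false)) = 12 := by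
  unfold tr
  simp only [ad_dec]
  decide

lemma tr_twoOct : tr twoOct ((false, false), (false, false)) = 24 := by
  unfold tr
  simp only [ad_dec]
  decide

lemma rook_cn : CN rook := by
  unfold CN
  decide

lemma rook_compl_adj (x y : W) : rookᶜ.Adj x y ↔ x ≠ y ∧ ¬ rook.Adj x y :=
  SimpleGraph.compl_adj _ _ _

lemma rook_compl_cn : CN rookᶜ := by
  unfold CN
  simp only [rook_compl_adj]
  decide

lemma rook_irr : IsIrreducible rook := by
  intro u v huv h
  have h' : ∀ q, rook.Adj u q ↔ rook.Adj v q := by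
    intro q
    have := Set.ext_iff.mp h q
    simpa [SimpleGraph.mem_neighborSet] using this
  clear h
  revert u v
  decide

lemma rook_compl_irr : IsIrreducible rookᶜ := by
  intro u v huv h
  have h' : ∀ q, rookᶜ.Adj u q ↔ rookᶜ.Adj v q := by
    intro q
    have := Set.ext_iff.mp h q
    simpa only [SimpleGraph.mem_neighborSet] using this
  simp only [rook_compl_adj] at h'
  clear h
  revert u v
  decide

lemma card_univ_Q : (Finset.univ : Finset Q).card = 4 := by decide

/-- A maximal clique of the rook graph is a row or a column. -/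
lemma rook_clique (C : Finset W) (hC : IsMaxClique rook C) :
    (∃ i, ∀ x, x ∈ C ↔ x.1 = i) ∨ (∃ j, ∀ x, x ∈ C ↔ x.2 = j) := by
  obtain ⟨h1, h2⟩ := hC
  have hne : ∃ p, p ∈ C := by
    by_contra h
    push Not at h
    obtain ⟨y, hy, _⟩ := h2 ((false, false), (false, false)) (h _)
    exact h y hy
  obtain ⟨p, hp⟩ := hne
  have hsplit : (∀ q ∈ C, q.1 = p.1) ∨ (∀ q ∈ C, q.2 = p.2) := by
    by_contra h
    push Not at h
    obtain ⟨⟨q, hq, hq1⟩, ⟨r, hr, hr1⟩⟩ := h
    have hpq := h1 p hp q hq (fun h => hq1 (by rw [h]))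
    have hpr := h1 p hp r hr (fun h => hr1 (by rw [h]))
    have hq2 : p.2 = q.2 := by
      rcases hpq with ⟨h3, _⟩ | ⟨_, h3⟩
      · exact absurd h3.symm hq1
      · exact h3
    have hr2 : p.1 = r.1 := by
      rcases hpr with ⟨h3, _⟩ | ⟨_, h3⟩
      · exact h3
      · exact absurd h3.symm hr1
    have hqr : q ≠ r := fun h => hq1 (by rw [h, hr2])
    rcases h1 q hq r hr hqr with ⟨h3, _⟩ | ⟨_, h3⟩
    · exact hq1 (h3.trans hr2.symm)
    · exact hr1 (h3.symm.trans hq2.symm)
  rcases hsplit with h | h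
  · refine Or.inl ⟨p.1, fun x => ⟨h x, fun hx => ?_⟩⟩
    by_contra hxC
    obtain ⟨y, hy, hn⟩ := h2 x hxC
    apply hn
    refine Or.inl ⟨hx.trans (h y hy).symm, fun h3 => hxC ?_⟩
    rw [Prod.ext (hx.trans (h y hy).symm) h3]
    exact hy
  · refine Or.inr ⟨p.2, fun x => ⟨h x, fun hx => ?_⟩⟩
    by_contra hxC
    obtain ⟨y, hy, hn⟩ := h2 x hxC
    apply hn
    refine Or.inr ⟨fun h3 => hxC ?_, hx.trans (h y hy).symm⟩
    rw [Prod.ext h3 (hx.trans (h y hy).symm)]
    exact hy

lemma rook_stable (S : Finset W) (hS : IsMaxStable rook S) :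
    (∀ i, ∃ j, (i, j) ∈ S) ∧ (∀ j, ∃ i, (i, j) ∈ S) ∧ S.card = 4 := by
  obtain ⟨h1, h2⟩ := hS
  have hinj1 : Set.InjOn Prod.fst (S : Set W) := by
    intro x hx y hy hxy
    by_contra hne
    exact h1 x hx y hy (Or.inl ⟨hxy, fun h => hne (Prod.ext hxy h)⟩)
  have hinj2 : Set.InjOn Prod.snd (S : Set W) := by
    intro x hx y hy hxy
    by_contra hne
    exact h1 x hx y hy (Or.inr ⟨fun h => hne (Prod.ext h hxy), hxy⟩)
  have hc1 := Finset.card_image_of_injOn hinj1
  have hc2 := Finset.card_image_of_injOn hinj2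
  have hfull : S.card = 4 := by
    have hle : S.card ≤ 4 := by
      rw [← hc1, ← card_univ_Q]
      exact Finset.card_le_card (Finset.subset_univ _)
    by_contra hne
    have hlt : S.card < 4 := by omega
    obtain ⟨i, hi⟩ : ∃ i, i ∉ S.image Prod.fst := by
      by_contra h
      push Not at h
      have := Finset.card_le_card (fun i _ => h i : (Finset.univ : Finset Q) ⊆ _)
      rw [card_univ_Q] at this
      omega
    obtain ⟨j, hj⟩ : ∃ j, j ∉ S.image Prod.snd := by
      by_contra h
      push Not at h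
      have := Finset.card_le_card (fun i _ => h i : (Finset.univ : Finset Q) ⊆ _)
      rw [card_univ_Q] at this
      omega
    have hij : (i, j) ∉ S := fun h => hi (Finset.mem_image.mpr ⟨_, h, rfl⟩)
    obtain ⟨y, hy, hadj⟩ := h2 _ hij
    rcases hadj with ⟨h3, _⟩ | ⟨_, h3⟩
    · exact hi (Finset.mem_image.mpr ⟨y, hy, h3.symm⟩)
    · exact hj (Finset.mem_image.mpr ⟨y, hy, h3.symm⟩)
  have hu1 : S.image Prod.fst = Finset.univ := by
    apply Finset.eq_univ_of_card
    rw [hc1, hfull]; rfl
  have hu2 : S.image Prod.snd = Finset.univ := by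
    apply Finset.eq_univ_of_card
    rw [hc2, hfull]; rfl
  refine ⟨fun i => ?_, fun j => ?_, hfull⟩
  · have : i ∈ S.image Prod.fst := by rw [hu1]; exact Finset.mem_univ _
    obtain ⟨y, hy, rfl⟩ := Finset.mem_image.mp this
    exact ⟨y.2, hy⟩
  · have : j ∈ S.image Prod.snd := by rw [hu2]; exact Finset.mem_univ _
    obtain ⟨y, hy, rfl⟩ := Finset.mem_image.mp this
    exact ⟨y.1, hy⟩

lemma rook_cis : IsCIS rook := by
  intro C S hC hS
  obtain ⟨h1, h2, _⟩ := rook_stable S hS
  rcases rook_clique C hC with ⟨i, hi⟩ | ⟨j, hj⟩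
  · obtain ⟨j, hj⟩ := h1 i
    exact ⟨(i, j), (hi _).mpr rfl, hj⟩
  · obtain ⟨i, hi⟩ := h2 j
    exact ⟨(i, j), (hj _).mpr rfl, hi⟩

lemma rook_cliqueSize : CliqueSize rook 4 := by
  intro C hC
  rcases rook_clique C hC with ⟨i, hi⟩ | ⟨j, hj⟩
  · have : C = Finset.univ.filter (fun x : W => x.1 = i) := by
      ext x; rw [hi]; simp
    rw [this]
    clear this hi
    revert i
    decide
  · have : C = Finset.univ.filter (fun x : W => x.2 = j) := by
      ext x; rw [hj]; simp
    rw [this]
    clear this hj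
    revert j
    decide

lemma rook_compl_cliqueSize : CliqueSize rookᶜ 4 := fun S hS =>
  (rook_stable S ((maxStable_iff _ _).mpr hS)).2.2

lemma twoOct_clique (C : Finset W) (hC : IsMaxClique twoOct C) :
    (∃ c : Bool, ∀ x ∈ C, x.1.1 = c) ∧ (∀ j, ∃ x ∈ C, x.2 = j) ∧ C.card = 4 := by
  obtain ⟨h1, h2⟩ := hC
  have hne : ∃ p, p ∈ C := by
    by_contra h
    push Not at h
    obtain ⟨y, hy, _⟩ := h2 ((false, false), (false, false)) (h _)
    exact h y hy
  obtain ⟨p, hp⟩ := hne
  have hc : ∀ x ∈ C, x.1.1 = p.1.1 := by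
    intro x hx
    by_cases hxp : x = p
    · rw [hxp]
    · exact (h1 x hx p hp hxp).1
  have hj : ∀ j, ∃ x ∈ C, x.2 = j := by
    intro j
    by_contra h
    push Not at h
    have hn : ((p.1.1, false), j) ∉ C := fun h3 => h _ h3 rfl
    obtain ⟨y, hy, hadj⟩ := h2 _ hn
    exact hadj ⟨(hc y hy).symm, fun h3 => h y hy h3.symm⟩
  refine ⟨⟨_, hc⟩, hj, ?_⟩
  have hinj : Set.InjOn Prod.snd (C : Set W) := by
    intro x hx y hy hxy
    by_contra hne
    exact (h1 x hx y hy hne).2 hxy
  rw [← Finset.card_image_of_injOn hinj]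
  have : C.image Prod.snd = Finset.univ := by
    ext j
    simp only [Finset.mem_univ, iff_true]
    obtain ⟨x, hx, rfl⟩ := hj j
    exact Finset.mem_image.mpr ⟨x, hx, rfl⟩
  rw [this]
  rfl

lemma twoOct_stable (S : Finset W) (hS : IsMaxStable twoOct S) :
    (∀ c : Bool, ∃ j : Q, ∀ t : Bool, ((c, t), j) ∈ S) ∧ S.card = 4 := by
  obtain ⟨h1, h2⟩ := hS
  have hex : ∀ c : Bool, ∃ x ∈ S, x.1.1 = c := by
    intro c
    by_contra h
    push Not at h
    have hn : ((c, false), ((false, false) : Q)) ∉ S := fun h3 => h _ h3 rfl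
    obtain ⟨y, hy, hadj⟩ := h2 _ hn
    exact h y hy hadj.1.symm
  have hsame : ∀ x ∈ S, ∀ y ∈ S, x.1.1 = y.1.1 → x.2 = y.2 := by
    intro x hx y hy hxy
    by_contra h
    exact h1 x hx y hy ⟨hxy, h⟩
  have hall : ∀ c : Bool, ∃ j : Q, ∀ t : Bool, ((c, t), j) ∈ S := by
    intro c
    obtain ⟨x, hx, hxc⟩ := hex c
    refine ⟨x.2, fun t => ?_⟩
    by_contra hn
    obtain ⟨y, hy, h3, h4⟩ := h2 _ hn
    exact h4 (hsame x hx y hy (hxc.trans h3))
  refine ⟨hall, ?_⟩
  have hinj : Set.InjOn Prod.fst (S : Set W) := by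
    intro x hx y hy hxy
    exact Prod.ext hxy (hsame x hx y hy (by rw [hxy]))
  rw [← Finset.card_image_of_injOn hinj]
  have : S.image Prod.fst = Finset.univ := by
    ext i
    simp only [Finset.mem_univ, iff_true]
    obtain ⟨j, hj⟩ := hall i.1
    exact Finset.mem_image.mpr ⟨_, hj i.2, rfl⟩
  rw [this]
  rfl

lemma twoOct_cis : IsCIS twoOct := by
  intro C S hC hS
  obtain ⟨⟨c, hc⟩, hj, _⟩ := twoOct_clique C hC
  obtain ⟨hall, _⟩ := twoOct_stable S hS
  obtain ⟨j, hj'⟩ := hall c
  obtain ⟨x, hx, hxj⟩ := hj j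
  refine ⟨x, hx, ?_⟩
  have := hj' x.1.2
  have hx2 : x = ((c, x.1.2), j) := Prod.ext (Prod.ext (hc x hx) rfl) hxj
  rw [hx2]
  exact this

lemma twoOct_cliqueSize : CliqueSize twoOct 4 := fun C hC => (twoOct_clique C hC).2.2

lemma twoOct_compl_cliqueSize : CliqueSize twoOctᶜ 4 := fun S hS =>
  (twoOct_stable S ((maxStable_iff _ _).mpr hS)).2

end Atoms

section Main

/-- Rook graph at every index except one. -/
def fam (u : W) : SimpleGraph W := if u = ((false, false), (false, false)) then twoOct else rook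

lemma fam_cases (u : W) : fam u = twoOct ∨ fam u = rook := by
  unfold fam
  split_ifs
  · exact Or.inl rfl
  · exact Or.inr rfl

/-- The middle graph. -/
def mid : SimpleGraph (W × W) := comp rook fam

/-- The example. -/
def big : SimpleGraph ((W × W) × W) := comp mid (fun _ => rook)

lemma fam_dg (u x : W) : dg (fam u) x = 6 := by
  rcases fam_cases u with h | h
  · rw [h]; exact dg_twoOct x
  · rw [h]; exact dg_rook x

lemma card_W : Fintype.card W = 16 := by decide

lemma mid_dg (p : W × W) : dg mid p = 102 := by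
  unfold mid
  rw [dg_comp, dg_rook, fam_dg, card_W]

lemma big_dg (p : (W × W) × W) : dg big p = 102 * 16 + 6 := by
  unfold big
  rw [dg_comp, mid_dg, dg_rook, card_W]

lemma big_regular : IsRegular big := ⟨102 * 16 + 6, fun v => by rw [dg_eq_ncard, big_dg]⟩

lemma big_cis : IsCIS big := by
  apply comp_cis
  · apply comp_cis _ _ rook_cis
    intro a
    rcases fam_cases a with h | h
    · rw [h]; exact twoOct_cis
    · rw [h]; exact rook_cis
  · exact fun _ => rook_cis

lemma big_cn : CN big := comp_cn _ _ (comp_cn _ _ rook_cn)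

lemma big_compl : bigᶜ = comp (comp rookᶜ (fun a => (fam a)ᶜ)) (fun _ => rookᶜ) := by
  unfold big mid
  rw [comp_compl, comp_compl]

lemma big_compl_cn : CN bigᶜ := by
  rw [big_compl]
  exact comp_cn _ _ (comp_cn _ _ rook_compl_cn)

lemma big_cliqueSize : CliqueSize big (4 * 4 * 4) := by
  apply comp_cliqueSize _ _ (4 * 4) 4
  · apply comp_cliqueSize _ _ 4 4 rook_cliqueSize
    intro a
    rcases fam_cases a with h | h
    · rw [h]; exact twoOct_cliqueSize
    · rw [h]; exact rook_cliqueSize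
  · exact fun _ => rook_cliqueSize

lemma big_compl_cliqueSize : CliqueSize bigᶜ (4 * 4 * 4) := by
  rw [big_compl]
  apply comp_cliqueSize _ _ (4 * 4) 4
  · apply comp_cliqueSize _ _ 4 4 rook_compl_cliqueSize
    intro a
    rcases fam_cases a with h | h
    · rw [h]; exact twoOct_compl_cliqueSize
    · rw [h]; exact rook_compl_cliqueSize
  · exact fun _ => rook_compl_cliqueSize

lemma wc_of_compl {V : Type} (G : SimpleGraph V) (w : ℕ) (h : CliqueSize Gᶜ w) :
    IsWellCovered G := by
  intro S T hS hT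
  rw [h S ((maxStable_iff _ _).mp hS), h T ((maxStable_iff _ _).mp hT)]

lemma big_not_vt : ¬ IsVertexTransitive big := by
  intro h
  let z : W := ((false, false), (false, false))
  let o : W := ((true, false), (false, false))
  obtain ⟨φ, hφ⟩ := h ((z, z), z) ((o, z), z)
  have h1 := tr_iso big φ ((z, z), z)
  rw [hφ] at h1
  unfold big at h1
  rw [tr_comp _ _ 6 (fun _ b => dg_rook b), tr_comp _ _ 6 (fun _ b => dg_rook b),
    mid_dg, mid_dg, card_W] at h1
  unfold mid at h1
  rw [tr_comp _ _ 6 fam_dg, tr_comp _ _ 6 fam_dg, dg_rook, dg_rook, card_W] at h1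
  have h2 : tr (fam o) z = 12 := by
    have : fam o = rook := by
      unfold fam
      rw [if_neg (by decide)]
    rw [this]; exact tr_rook
  have h3 : tr (fam z) z = 24 := by
    have : fam z = twoOct := by
      unfold fam
      rw [if_pos rfl]
    rw [this]; exact tr_twoOct
  have h4 : tr rook o = 12 := by
    unfold tr
    simp only [ad_dec]
    decide
  have h5 : tr rook z = 12 := tr_rook
  rw [h2, h3, h4, h5] at h1
  omega

/-- The answer to Q1 is negative. -/
theorem result : ∃ (V : Type) (_ : Fintype V) (G : SimpleGraph V),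
    IsRegular G ∧ IsCIS G ∧ G.Connected ∧ Gᶜ.Connected ∧ IsWellCovered G ∧ IsWellCovered Gᶜ ∧
      IsIrreducible G ∧ IsIrreducible Gᶜ ∧ ¬ IsVertexTransitive G := by
  refine ⟨(W × W) × W, inferInstance, big, big_regular, big_cis, cn_connected _ big_cn,
    cn_connected _ big_compl_cn, wc_of_compl _ _ big_compl_cliqueSize,
    wc_of_compl _ (4 * 4 * 4) ?_, comp_irreducible _ _ rook_irr rook_cn, ?_, big_not_vt⟩
  · rw [compl_compl]; exact big_cliqueSize
  · rw [big_compl]
    exact comp_irreducible _ _ rook_compl_irr rook_compl_cn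

end Main

end Pool.Agent.Results.MP_509871_co.RegularCISNotTransitive
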